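import Pool.Agent.Run7.h469.PA.Main

/-!
# Subgroups of the Mordell-Weil group with `m` generators: the exceptions lie on a rational hypersurface

Let `A` be a simple abelian variety over `ℚ` of dimension `n`, `p` any prime number, `e_1, …, e_N ∈ A(ℚ)`. We call an integral
`m × N` matrix `k` good if for all torsion points `t_1, …, t_m` the closure in `A(ℚ_p)` of the group generated by the `m` points
`∑_j k_ij e_j + t_i` is isomorphic to `ℤ_p ^ m` modulo finite torsion; so the answer to Q1 is yes for these groups.

**Theorem.** Suppose that ONE group of this form with `m` generators has a closure of `ℤ_p`-rank `m`; or that the `e_j` are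
independent and generate `A(ℚ)` up to torsion, `N ≥ 1`, and that `m ≤ [F : ℚ]` for a commutative subfield `F` of `End⁰(A)` (for
`A` of `GL_2`-type all `m ≤ n` are allowed). Then:

1. There is a nonzero polynomial `P = ∑_J c_J ∏_i k_{i, J(i)}`, with integral coefficients and homogeneous of degree one in every
   row of `k`, such that ALL integral matrices `k` with `P(k) ≠ 0` are good.
2. For all real `m × N` matrices `α` such that the `N ^ m` products `∏_i α_{i, J(i)}` (`J` a map from `{1, …, m}` to `{1, …, N}`)
   are linearly independent over `ℚ`, for instance if the entries of `α` are algebraically independent, there is an open cone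
   around `α` such that ALL integral matrices in this cone are good. The condition on `α` does not depend on `A`, `p` and the
   `e_j`. One can take `α_{i,j} = ξ ^ (j N ^ i)`, `0 ≤ i < m`, `0 ≤ j < N`, where `ξ` is a real number which is not algebraic of
   degree less than `N ^ m`.
3. For all integers `T`, with at most `N ^ m - 1` exceptions, the matrix with the entries `T ^ (j N ^ i)`, `0 ≤ i < m`,
   `0 ≤ j < N`, is good: the groups generated by the points `∑_j T ^ (j N ^ i) e_j`, `i < m`, have closures of rank `m`. The bound
   for the number of the exceptions does not depend on `A`, `p` and the `e_j`.

The starting result `AlmostAllTuplesH14` of this problem bounds the number of the matrices in boxes which are not good, for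
`m ≤ [F : ℚ]`, and the result `LargeRank` (of our team) shows that one good group implies that all but
`m (2 H + 1) ^ (m N - 1)` matrices with entries up to `H` are good. These results do not give any group of which one knows that
it is good. Here there are open cones in which all matrices are good, and one-parameter families (powers) with a bounded number
of exceptions; such families have density zero. By 1. and the starting result the exceptions form a set of integral points of a
hypersurface which is small also in the sense of the number of points.

The proof: if one group is good then some `m × m` minor of the matrix of the logarithms of the `m` points is a nonzero polynomial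
in `k`, homogeneous of degree one in every row, with coefficients in `ℚ_p`. A `ℚ`-linear functional on `ℚ_p` which does not
vanish at one of the coefficients gives the polynomial `P`. For the second part the starting result gives one good group.
-/

set_option autoImplicit false

open Module Pool.Agent.E8helper40.PC Pool.Agent.E8helper14.PA

namespace Pool.Agent.Results.MP_52423f_nt.ExceptionalHypersurface

open Run7.h469.PA (OneGood Hypersurface Cones Powers)

/-- **The exceptional matrices lie on a rational hypersurface.** Let `A` be a simple abelian variety over `ℚ` and
`e_1, …, e_N ∈ A(ℚ)`. Suppose that one group generated by `m` points `∑_j k_ij e_j + t_i`, `t_i` torsion, has a closure in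
`A(ℚ_p)` of rank `m`, or that the `e_j` are independent and generate `A(ℚ)` up to torsion, `N > 0`, and `m ≤ [F : ℚ]` for a
commutative subfield `F` of `End⁰(A)`. Then (1) there are integers `c_J`, not all `0`, such that all integral matrices `k` with
`∑_J c_J ∏_i k_{i, J(i)} ≠ 0` are good; (2) every real matrix `α` such that the products `∏_i α_{i, J(i)}` are linearly
independent over `ℚ` has a neighbourhood `U` such that all integral matrices in the cone `⋃_(t > 0) t U` are good; (3) for all but
at most `N ^ m - 1` integers `T` the matrix with the entries `T ^ (j N ^ i)` is good. -/
theorem result {p : ℕ} [Fact p.Prime] {n : ℕ} (A : SimpleAbelianVariety p n) {N : ℕ} (e : Fin N → A.Pts) (m : ℕ) :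
    (OneGood A e m → Hypersurface A e m ∧ Cones A e m ∧ Powers A e m) ∧
    ∀ F : Subfield A.End, Commutative A F → 0 < N → Independent A e → Generates A e → m ≤ degree A F →
      Hypersurface A e m ∧ Cones A e m ∧ Powers A e m := by
  have key : OneGood A e m → Hypersurface A e m ∧ Cones A e m ∧ Powers A e m := fun h =>
    have h1 := Run7.h469.PA.hypersurface A e m h
    ⟨h1, Run7.h469.PA.cones A e m h1, Run7.h469.PA.powers A e m h1⟩
  exact ⟨key, fun F hF hN he hg hm => key (Run7.h469.PA.oneGood_of_endomorphisms A F hF hN e he hg m hm)⟩

end Pool.Agent.Results.MP_52423f_nt.ExceptionalHypersurface
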