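import Pool.Agent.Run7.h306.WA2

/-!
# Almost all subgroups of a simple abelian variety of large rank, without conditions on the endomorphisms

Let `A` be a simple abelian variety over `ℚ` of dimension `n`. The question is whether the closure in
`A(ℚ_p)` of every subgroup of `A(ℚ)` of rank `m ≤ n` has the `ℤ_p`-rank `m`. Waldschmidt's theorem says
that a subgroup of rank `ℓ` has a closure of `ℤ_p`-rank `ρ ≥ ℓ n / (ℓ + 2 n)` (so at least `m / 3` for
`m ≤ n`). `AlmostAllTuplesH14` gives `ρ = m` for almost all subgroups of rank `m ≤ [F : ℚ]`, `F` a subfield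
of `End⁰(A)`; for `End⁰(A) = ℚ` this says nothing for `m ≥ 2`. Here there is no condition on `End⁰(A)`.

Let `e_1, …, e_N ∈ A(ℚ)` and `B(r) = ⌊2 n r / (n - r)⌋`.

1. If for a prime number `p` the answer of the question is yes for one subgroup with `m` generators
`∑_j k_ij e_j + t_i` (`t_i` torsion) then it is yes for all but `m (2 H + 1) ^ (m N - 1)` of the
`(2 H + 1) ^ (m N)` matrices `|k_ij| ≤ H` (and all torsion points `t_i`).

Let the `e_j` be independent. By Waldschmidt's theorem:

2. For each `L` with closure of rank `r < n` the points `x ∈ A(ℚ)` such that the closure of `L + ℤ x` has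
rank `r` form a group of rank `≤ B(r)`, with at most `(2 H + 1) ^ B(r)` points in the box. For all other
`x` the rank is `r + 1`.
3. For each finite set `Q` of prime numbers and `m ≤ n`, for all but
`|Q| m (2 H + 1) ^ ((m - 1) N + B(m - 1))` of the matrices the closure in `A(ℚ_p)` of the group
generated by the points `∑_j k_ij e_j + t_i` has the `ℤ_p`-rank `m` for all `p ∈ Q` and all torsion points
`t_i`.
4. If `m < n N / (N + 2 n) + 1` then `B(m - 1) < N`, so the proportion of the failures in 3 is at most
`|Q| m / (2 H + 1) ^ (N - B(m - 1))`: the answer is yes for almost all subgroups of rank `m`, for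
all prime numbers up to any `X = o(H ^ (N - B(m - 1)))` simultaneously.
5. If `N > 2 n (n - 1)` this holds for all `m ≤ n`, that is for all `m` which occur in the question.
-/

set_option autoImplicit false

namespace Pool.Agent.Results.MP_52423f_nt.LargeRank

open Pool.Agent.Run7.h306.WA

/-- **Almost all subgroups of the Mordell-Weil group of a simple abelian variety.** -/
theorem result {n : ℕ} (A : AbVar n) {N : ℕ} (e : Fin N → A.Pts) :
    OneToAll A e ∧ (Waldschmidt A → Indep A e →
      OnePoint A e ∧ Tuples A e ∧ Proportion A e ∧ LargeRank A e) :=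
  main A e

end Pool.Agent.Results.MP_52423f_nt.LargeRank
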