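import Pool.Agent.Run7.h469.PA.Near

/-!
# Subgroups of the Mordell-Weil group with matrices near a generic subspace, for all primes

Let `A` be a simple abelian variety over `ℚ` of dimension `n` with, for every prime number `p`, a commutative subfield `F` of
`End⁰(A)` of degree `f` over `ℚ` (for `A` of `GL_2`-type `f = n`), and let `e_1, …, e_N ∈ A(ℚ)` be a basis of `A(ℚ)` modulo torsion
(or of a subgroup of finite index), `N = f s`. An integral `m × N` matrix `k` is good at `p` if for all torsion points
`t_1, …, t_m` the closure in `A(ℚ_p)` of the group generated by the points `∑_j k_ij e_j + t_i` is isomorphic to `ℤ_p ^ m` modulo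
finite torsion; so the answer to Q1 is yes for these groups.

**Theorem.** Let `1 ≤ m ≤ f`, `h ≥ 0` and `0 ≤ θ < 1`.

1. For all primes `p`: for all systems `α` of `h` real `m × N` matrices outside a set of Hausdorff dimension at most
   `m N (h - 1) + (m N - s (f + 1 - m) + h) / (1 - θ)` (less than `m N h`, if `h + m N θ < s (f + 1 - m)`) and all `B`, ALL but
   finitely many of the integral matrices `k`, for which the distance of `k` to some point `∑ x_l α_l` of the space spanned by
   `α` is at most `B (1 + |x|) ^ θ`, are good at `p`.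
2. If `h ≥ 1` and `h + m N θ < s (f + 1 - m)`, then for almost all `α` this is true for ALL primes `p`.

So in almost all spaces of dimension `h < s (f + 1 - m)`, and in their neighbourhoods, there are only finitely many exceptions,
for all primes. As `B` is arbitrary, the same holds near the affine spaces parallel to the given one.

The starting result `AlmostAllTuplesH14` of this problem bounds the number of the matrices with entries up to `H` which are not
good; the passage to neighbourhoods of generic subspaces is a covering argument (`Pool.Agent.N251.LF.Tuples` of the starting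
library, where it is applied to tuples of integers). For `h = 1` our result `ExceptionalHypersurface` gives explicit conditions on
`α`; for `h ≥ 2` the hypersurface which is obtained there can have many integral points near the space.
-/

set_option autoImplicit false

open Module Pool.Agent.E8helper40.PC Pool.Agent.E8helper14.PA TensorProduct

namespace Pool.Agent.Results.MP_52423f_nt.NearGenericSubspaces

open MeasureTheory
open Run7.h469.Ns (Near NearSubspaces)
open Pool.Agent.Run7.h306.WA (AbVar Indep Good)

/-- **Groups with `m` generators near generic subspaces.** Let `A` be a simple abelian variety over `ℚ`, for every prime `p` let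
`F_p` be a commutative subfield of `End⁰(A)` of degree `f`, let `e_1, …, e_N ∈ A(ℚ)` be independent and generate `A(ℚ)` up to
torsion, `N = f s`, `1 ≤ m ≤ f`, `h ≥ 0` and `0 ≤ θ < 1`. (1) For all primes `p`, for all systems `α` of `h` real `m × N` matrices
outside a set of dimension at most `m N (h - 1) + (m N - s (f + 1 - m) + h) / (1 - θ)`, for all `B`, all but finitely many of the
integral matrices within `B (1 + |x|) ^ θ` of some point `∑ x_l α_l` of the space spanned by `α` are good at `p`. (2) If `h ≥ 1`
and `h + m N θ < s (f + 1 - m)`, then for almost all `α` this is true for ALL primes `p`. -/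
theorem result {n : ℕ} (A : AbVar n) (F : ∀ (p : ℕ) [Fact p.Prime], Subfield (A.loc p).End)
    (hF : ∀ (p : ℕ) [Fact p.Prime], Commutative (A.loc p) (F p)) (f s : ℕ)
    (hf : ∀ (p : ℕ) [Fact p.Prime], degree (A.loc p) (F p) = f) {N : ℕ} (e : Fin N → A.Pts) (he : Indep A e)
    (hg : Submodule.span ℚ (Set.range fun j => (1 : ℚ) ⊗ₜ[ℤ] e j) = ⊤) (hN : N = f * s) (m : ℕ) (hm1 : 1 ≤ m) (hm : m ≤ f)
    (h : ℕ) (θ : ℝ) (hθ0 : 0 ≤ θ) (hθ : θ < 1) :
    (∀ (p : ℕ) [Fact p.Prime], NearSubspaces m N h
      ((m : ℝ) * N * (h - 1) + (m * N - s * (f + 1 - m) + h) / (1 - θ)) θ (fun k => Good A p e k)) ∧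
    (1 ≤ h → (h : ℝ) + m * N * θ < s * (f + 1 - m) → ∀ᵐ α : Fin m × Fin N × Fin h → ℝ,
      ∀ (p : ℕ) [Fact p.Prime] (B : ℝ), {k ∈ Near α B θ | ¬ Good A p e k}.Finite) := by
  have key : ∀ (p : ℕ) [Fact p.Prime], NearSubspaces m N h
      ((m : ℝ) * N * (h - 1) + (m * N - s * (f + 1 - m) + h) / (1 - θ)) θ (fun k => Good A p e k) := by
    intro p hp
    obtain ⟨E, hE, hE2⟩ := Run7.h469.PA.near_local (A.loc p) (F p) (hF p)
      (Pool.Agent.Run7.h306.WA.locPts A p e) (Pool.Agent.Run7.h306.WA.locPts_indep A e he)
      (Run7.h469.PA.locPts_generates A p e hg) (hf p) hN hm1 hm h hθ0 hθ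
    refine ⟨E, hE, fun α hα B => (hE2 α hα B).subset ?_⟩
    rintro k ⟨hk1, hk2⟩
    exact ⟨hk1, fun hgood => hk2 (Pool.Agent.Run7.h306.WA.good_of_local A e k hgood)⟩
  refine ⟨fun p _ => key p, fun hh hlt => ?_⟩
  have h1 : (1 : ℝ) ≤ h := by exact_mod_cast hh
  have hN0 : 0 < N := by
    rcases Nat.eq_zero_or_pos N with h0 | h0
    · exfalso
      have hs0 : s = 0 := by
        have hf0 : f ≠ 0 := by omega
        rw [h0] at hN
        rcases Nat.mul_eq_zero.1 hN.symm with h2 | h2
        · exact absurd h2 hf0
        · exact h2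
      rw [hs0, h0] at hlt
      simp only [Nat.cast_zero, zero_mul, mul_zero, add_zero] at hlt
      linarith
    · exact h0
  have hpos : 0 < (m : ℝ) * N * h := by
    have a1 : (1 : ℝ) ≤ m := by exact_mod_cast hm1
    have a2 : (1 : ℝ) ≤ N := by exact_mod_cast hN0
    positivity
  have hdim : (m : ℝ) * N * (h - 1) + (m * N - s * (f + 1 - m) + h) / (1 - θ) < (m : ℝ) * N * h := by
    have h2 : 0 < 1 - θ := by linarith
    have h3 : ((m : ℝ) * N - s * (f + 1 - m) + h) / (1 - θ) < m * N := by
      rw [div_lt_iff₀ h2]
      nlinarith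
    nlinarith
  have hae : ∀ᵐ α : Fin m × Fin N × Fin h → ℝ, ∀ q : {p : ℕ // p.Prime},
      ∀ B : ℝ, {k ∈ Near α B θ | ¬ @Good n A q.1 ⟨q.2⟩ m N e k}.Finite := by
    rw [ae_all_iff]
    rintro ⟨p, hp⟩
    have : Fact p.Prime := ⟨hp⟩
    exact (key p).ae hdim hpos
  filter_upwards [hae] with α hα p hp B
  exact hα ⟨p, hp.out⟩ B

end Pool.Agent.Results.MP_52423f_nt.NearGenericSubspaces
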